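import Mathlib

/-! General facts on relative interiors and faces of polytopes. -/

namespace Pool.Agent.MP_d6d24d_co.H30

open Set

variable {E : Type*} [NormedAddCommGroup E] [NormedSpace ℝ E]

theorem mem_relint_iff {F : Set E} {x : E} :
    x ∈ intrinsicInterior ℝ F ↔
      x ∈ F ∧ ∃ δ > 0, ∀ y ∈ affineSpan ℝ F, dist y x < δ → y ∈ F := by
  constructor
  · intro h
    have hxF : x ∈ F := intrinsicInterior_subset h
    obtain ⟨x', hx', rfl⟩ := mem_intrinsicInterior.1 h
    refine ⟨hxF, ?_⟩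
    rw [mem_interior_iff_mem_nhds, Metric.mem_nhds_iff] at hx'
    obtain ⟨δ, hδ, hb⟩ := hx'
    refine ⟨δ, hδ, fun y hy hd => ?_⟩
    exact hb (a := ⟨y, hy⟩) (by simpa [Metric.mem_ball, Subtype.dist_eq] using hd)
  · rintro ⟨hxF, δ, hδ, hb⟩
    refine mem_intrinsicInterior.2 ⟨⟨x, subset_affineSpan ℝ F hxF⟩, ?_, rfl⟩
    rw [mem_interior_iff_mem_nhds, Metric.mem_nhds_iff]
    refine ⟨δ, hδ, fun y hy => ?_⟩
    exact hb y.1 y.2 (by simpa [Metric.mem_ball, Subtype.dist_eq] using hy)

theorem add_smul_sub_mem_affineSpan {F : Set E} {x y : E} (hx : x ∈ affineSpan ℝ F)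
    (hy : y ∈ affineSpan ℝ F) (t : ℝ) : x + t • (x - y) ∈ affineSpan ℝ F := by
  have := (affineSpan ℝ F).smul_vsub_vadd_mem t hx hy hx
  simpa [add_comm] using this

/-- From a relative interior point one can step away from any point of the affine span. -/
theorem relint_extend {F : Set E} {x y : E} (hx : x ∈ intrinsicInterior ℝ F)
    (hy : y ∈ affineSpan ℝ F) : ∃ ε > 0, ∀ t : ℝ, |t| ≤ ε → x + t • (x - y) ∈ F := by
  obtain ⟨hxF, δ, hδ, hb⟩ := mem_relint_iff.1 hx
  refine ⟨δ / (2 * (‖x - y‖ + 1)), by positivity, fun t ht => ?_⟩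
  apply hb _ (add_smul_sub_mem_affineSpan (subset_affineSpan ℝ F hxF) hy t)
  rw [dist_eq_norm, add_sub_cancel_left, norm_smul, Real.norm_eq_abs]
  have h1 : 0 ≤ ‖x - y‖ := norm_nonneg _
  have h2 : |t| * (2 * (‖x - y‖ + 1)) ≤ δ := by
    rwa [le_div_iff₀ (by positivity)] at ht
  nlinarith [abs_nonneg t]

/-- The smallest face of `P` through `x`. -/
def minFace (P : Set E) (x : E) : Set E := {y ∈ P | ∃ ε : ℝ, 0 < ε ∧ x + ε • (x - y) ∈ P}

theorem minFace_shrink {P : Set E} (hP : Convex ℝ P) {x y : E} (hx : x ∈ P) {ε δ : ℝ}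
    (hε : 0 < ε) (h : x + ε • (x - y) ∈ P) (hδ : 0 ≤ δ) (hδε : δ ≤ ε) :
    x + δ • (x - y) ∈ P := by
  have := hP hx h (a := 1 - δ / ε) (b := δ / ε) (by
    rw [sub_nonneg, div_le_one hε]; exact hδε) (by positivity) (by ring)
  convert this using 1
  rw [smul_add, smul_smul, div_mul_cancel₀ _ hε.ne']
  module

theorem minFace_convex {P : Set E} (hP : Convex ℝ P) {x : E} (hx : x ∈ P) :
    Convex ℝ (minFace P x) := by
  rintro y ⟨hy, ε, hε, hy'⟩ z ⟨hz, η, hη, hz'⟩ a b ha hb hab
  refine ⟨hP hy hz ha hb hab, min ε η, lt_min hε hη, ?_⟩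
  have h1 := minFace_shrink hP hx hε hy' (lt_min hε hη).le (min_le_left _ _)
  have h2 := minFace_shrink hP hx hη hz' (lt_min hε hη).le (min_le_right _ _)
  have := hP h1 h2 ha hb hab
  convert this using 1
  have hb' : b = 1 - a := by linarith
  subst hb'
  module

theorem self_mem_minFace {P : Set E} {x : E} (hx : x ∈ P) : x ∈ minFace P x :=
  ⟨hx, 1, one_pos, by simpa using hx⟩

theorem minFace_isExtreme {P : Set E} (hP : Convex ℝ P) {x : E} :
    IsExtreme ℝ P (minFace P x) := by
  refine ⟨fun y hy => hy.1, ?_⟩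
  rintro a ha b hb z ⟨hz, ε, hε, hz'⟩ ⟨s, t, hs, ht, hst, rfl⟩
  refine ⟨ha, ε * s / (1 + ε * t), by positivity, ?_⟩
  have hpos : 0 < 1 + ε * t := by positivity
  have := hP hz' hb (a := 1 / (1 + ε * t)) (b := ε * t / (1 + ε * t)) (by positivity)
    (by positivity) (by field_simp)
  convert this using 1
  have hs' : s = 1 - t := by linarith
  subst hs'
  have hne : (1 + ε * t) ≠ 0 := hpos.ne'
  match_scalars <;> field_simp <;> ring

theorem mem_relint_minFace [FiniteDimensional ℝ E] {P : Set E} (hP : Convex ℝ P) {x : E}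
    (hx : x ∈ P) : x ∈ intrinsicInterior ℝ (minFace P x) := by
  have hF := minFace_convex hP hx
  obtain ⟨z, hz⟩ := Set.Nonempty.intrinsicInterior hF ⟨x, self_mem_minFace hx⟩
  obtain ⟨hzF, δ, hδ, hb⟩ := mem_relint_iff.1 hz
  obtain ⟨hzP, ε, hε, hz'⟩ := hzF
  have hx' : x + ε • (x - z) ∈ minFace P x := by
    refine ⟨hz', 1 / ε, by positivity, ?_⟩
    convert hzP using 1
    match_scalars <;> field_simp <;> ring
  have hzF : z ∈ minFace P x := ⟨hzP, ε, hε, hz'⟩
  have hxF := self_mem_minFace (P := P) hx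
  refine mem_relint_iff.2 ⟨hxF, δ * (ε / (1 + ε)), by positivity, fun y hy hd => ?_⟩
  have hz2 : z + ((1 + ε) / ε) • (y - x) ∈ minFace P x := by
    apply hb
    · have := (affineSpan ℝ (minFace P x)).smul_vsub_vadd_mem ((1 + ε) / ε) hy
        (subset_affineSpan ℝ _ hxF) (subset_affineSpan ℝ _ hzF)
      simpa [add_comm] using this
    · rw [dist_eq_norm, add_sub_cancel_left, norm_smul, Real.norm_eq_abs,
        abs_of_pos (by positivity)]
      rw [dist_eq_norm] at hd
      have h1 : (1 + ε) / ε * ‖y - x‖ < (1 + ε) / ε * (δ * (ε / (1 + ε))) :=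
        mul_lt_mul_of_pos_left hd (by positivity)
      have h2 : (1 + ε) / ε * (δ * (ε / (1 + ε))) = δ := by field_simp
      linarith
  have := hF hx' hz2 (a := 1 / (1 + ε)) (b := ε / (1 + ε)) (by positivity) (by positivity)
    (by field_simp)
  convert this using 1
  have hne : (1 + ε) ≠ 0 := by positivity
  match_scalars <;> field_simp <;> ring

theorem inter_affineSpan_minFace [FiniteDimensional ℝ E] {P : Set E} (hP : Convex ℝ P) {x y : E}
    (hx : x ∈ P) (hy : y ∈ P) (hy' : y ∈ affineSpan ℝ (minFace P x)) : y ∈ minFace P x := by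
  obtain ⟨ε, hε, h⟩ := relint_extend (mem_relint_minFace hP hx) hy'
  exact ⟨hy, ε, hε, (h ε (by rw [abs_of_pos hε])).1⟩

theorem minFace_isExposed [FiniteDimensional ℝ E] (S : Finset E) {x : E}
    (hx : x ∈ convexHull ℝ (S : Set E)) :
    IsExposed ℝ (convexHull ℝ (S : Set E)) (minFace (convexHull ℝ (S : Set E)) x) := by
  classical
  intro _
  set P := convexHull ℝ (S : Set E) with hPdef
  have hP : Convex ℝ P := convex_convexHull _ _
  set F := minFace P x with hFdef
  have hF : Convex ℝ F := minFace_convex hP hx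
  have hxF : x ∈ F := self_mem_minFace hx
  have hKfin : ((S : Set E) \ F).Finite := S.finite_toSet.subset sdiff_subset
  have hKsub : convexHull ℝ ((S : Set E) \ F) ⊆ P \ F :=
    convexHull_min (fun s hs => ⟨subset_convexHull ℝ _ hs.1, hs.2⟩)
      ((minFace_isExtreme hP).convex_sdiff hP)
  have hdisj : Disjoint (convexHull ℝ ((S : Set E) \ F)) (affineSpan ℝ F : Set E) := by
    rw [Set.disjoint_left]
    intro y hy hy'
    exact (hKsub hy).2 (inter_affineSpan_minFace hP hx (hKsub hy).1 hy')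
  obtain ⟨f, u, v, hfu, huv, hfv⟩ := geometric_hahn_banach_compact_closed
    (convex_convexHull ℝ _) (hKfin.isCompact_convexHull ℝ) (affineSpan ℝ F).convex
    (affineSpan ℝ F).closed_of_finiteDimensional hdisj
  have hxA : x ∈ affineSpan ℝ F := subset_affineSpan ℝ F hxF
  have hconst : ∀ y ∈ F, f y = f x := by
    intro y hy
    by_contra hne
    have hne' : f x - f y ≠ 0 := sub_ne_zero.2 (Ne.symm hne)
    have := hfv _ (add_smul_sub_mem_affineSpan hxA (subset_affineSpan ℝ F hy)
      ((v - f x) / (f x - f y)))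
    rw [map_add, map_smul, map_sub, smul_eq_mul, div_mul_cancel₀ _ hne'] at this
    linarith
  have hlt : ∀ s ∈ (S : Set E), s ∉ F → f s < f x := fun s hs hs' => by
    have := hfu s (subset_convexHull ℝ _ ⟨hs, hs'⟩)
    have := hfv x hxA
    linarith
  have hle : ∀ y ∈ P, f y ≤ f x := by
    intro y hy
    have hc : Convex ℝ {y | f y ≤ f x} := convex_halfSpace_le f.isLinear _
    refine convexHull_min (fun s hs => ?_) hc hy
    by_cases h : s ∈ F
    · exact (hconst s h).le
    · exact (hlt s hs h).le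
  refine ⟨f, ?_⟩
  ext y
  constructor
  · intro hy
    exact ⟨hy.1, fun z hz => by rw [hconst y hy]; exact hle z hz⟩
  · rintro ⟨hy, hy'⟩
    have hyx : f x ≤ f y := hy' x hx
    have hc : Convex ℝ {y | y ∈ P ∧ (f y < f x ∨ y ∈ F)} := by
      rintro a ⟨ha, ha'⟩ b ⟨hb, hb'⟩ s t hs ht hst
      refine ⟨hP ha hb hs ht hst, ?_⟩
      have h1 := hle a ha
      have h2 := hle b hb
      rcases hs.eq_or_lt with rfl | hs'
      · have : t = 1 := by linarith
        subst this
        simpa using hb'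
      rcases ht.eq_or_lt with rfl | ht'
      · have : s = 1 := by linarith
        subst this
        simpa using ha'
      rw [map_add, map_smul, map_smul, smul_eq_mul, smul_eq_mul]
      have hx' : f x = s * f x + t * f x := by rw [← add_mul, hst, one_mul]
      rcases ha' with ha' | ha'
      · left; nlinarith
      rcases hb' with hb' | hb'
      · left; nlinarith
      · right; exact hF ha' hb' hs ht hst
    have : y ∈ {y | y ∈ P ∧ (f y < f x ∨ y ∈ F)} := by
      refine convexHull_min (fun s hs => ?_) hc hy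
      refine ⟨subset_convexHull ℝ _ hs, ?_⟩
      by_cases h : s ∈ F
      · exact Or.inr h
      · exact Or.inl (hlt s hs h)
    rcases this.2 with h | h
    · linarith
    · exact h

end Pool.Agent.MP_d6d24d_co.H30
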