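import Pool.Agent.MP_d6d24d_co.H30.Defs
import Pool.Agent.MP_d6d24d_co.H30.Faces

/-! General facts on the cells of a tiling by convex polytopes. -/

namespace Pool.Agent.MP_d6d24d_co.H30

open Set

variable {d : ℕ} {T : Set (Set (EuclideanSpace ℝ (Fin d)))}

/-- The cell of a point. -/
def cell (T : Set (Set (EuclideanSpace ℝ (Fin d)))) (x : EuclideanSpace ℝ (Fin d)) :
    Set (EuclideanSpace ℝ (Fin d)) := closure {y | sigma T y = sigma T x}

theorem cell_mem (T : Set (Set (EuclideanSpace ℝ (Fin d)))) (x : EuclideanSpace ℝ (Fin d)) :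
    cell T x ∈ facePoset T := Or.inl ⟨x, rfl⟩

theorem self_mem_cell (T : Set (Set (EuclideanSpace ℝ (Fin d)))) (x : EuclideanSpace ℝ (Fin d)) :
    x ∈ cell T x := subset_closure rfl

theorem IsPolytope.convex {P : Set (EuclideanSpace ℝ (Fin d))} (h : IsPolytope P) :
    Convex ℝ P := by
  obtain ⟨⟨S, rfl⟩, -⟩ := h
  exact convex_convexHull _ _

theorem IsPolytope.isCompact {P : Set (EuclideanSpace ℝ (Fin d))} (h : IsPolytope P) :
    IsCompact P := by
  obtain ⟨⟨S, rfl⟩, -⟩ := h
  exact S.finite_toSet.isCompact_convexHull ℝ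

theorem IsPolytope.closure_interior {P : Set (EuclideanSpace ℝ (Fin d))} (h : IsPolytope P) :
    closure (interior P) = P := by
  rw [h.convex.closure_interior_eq_closure_of_nonempty_interior h.2, h.isCompact.isClosed.closure_eq]

theorem minFace_mem_sigma (hT : IsTiling T) {P : Set (EuclideanSpace ℝ (Fin d))} (hP : P ∈ T)
    {x : EuclideanSpace ℝ (Fin d)} (hx : x ∈ P) : (P, minFace P x) ∈ sigma T x := by
  have hp := hT.1 P hP
  refine ⟨hP, hx, ?_, mem_relint_minFace hp.convex hx⟩
  obtain ⟨⟨S, rfl⟩, -⟩ := hp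
  exact minFace_isExposed S hx

theorem cell_subset (hT : IsTiling T) {P : Set (EuclideanSpace ℝ (Fin d))} (hP : P ∈ T)
    {x : EuclideanSpace ℝ (Fin d)} (hx : x ∈ P) : cell T x ⊆ P := by
  refine closure_minimal (fun y hy => ?_) (hT.1 P hP).isCompact.isClosed
  have h := minFace_mem_sigma hT hP hx
  have hy' : sigma T y = sigma T x := hy
  rw [← hy'] at h
  exact h.2.1

theorem eq_of_mem_interior (hT : IsTiling T) {P Q : Set (EuclideanSpace ℝ (Fin d))} (hP : P ∈ T)
    (hQ : Q ∈ T) {y : EuclideanSpace ℝ (Fin d)} (hy : y ∈ interior P) (hyQ : y ∈ Q) : Q = P := by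
  by_contra hne
  have hd := hT.2.2 P hP Q hQ (Ne.symm hne)
  rw [← (hT.1 Q hQ).closure_interior] at hyQ
  obtain ⟨z, hz1, hz2⟩ := mem_closure_iff.1 hyQ _ isOpen_interior hy
  exact Set.disjoint_left.1 hd hz1 hz2

theorem sigma_interior (hT : IsTiling T) {P : Set (EuclideanSpace ℝ (Fin d))} (hP : P ∈ T)
    {y : EuclideanSpace ℝ (Fin d)} (hy : y ∈ interior P) : sigma T y = {(P, P)} := by
  ext ⟨Q, F⟩
  constructor
  · rintro ⟨hQ, hyQ, hF, hyF⟩
    obtain rfl : Q = P := eq_of_mem_interior hT hP hQ hy hyQ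
    have hyF' : y ∈ F := intrinsicInterior_subset hyF
    obtain ⟨l, hl⟩ := hF ⟨y, hyF'⟩
    simp only at hl
    have hymax : ∀ z ∈ Q, l z ≤ l y := by
      rw [hl] at hyF'; exact hyF'.2
    have hconst : ∀ z ∈ Q, l z = l y := by
      intro z hz
      obtain ⟨ε, hε, h⟩ := relint_extend (interior_subset_intrinsicInterior (𝕜 := ℝ) hy)
        (subset_affineSpan ℝ Q hz)
      have h1 := hymax _ (h ε (by rw [abs_of_pos hε]))
      rw [map_add, map_smul, map_sub, smul_eq_mul] at h1
      have h2 := hymax z hz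
      nlinarith
    have : F = Q := by
      rw [hl]
      ext z
      exact ⟨fun h => h.1, fun h => ⟨h, fun w hw => by rw [hconst z h, hconst w hw]⟩⟩
    simp [this]
  · intro h
    rw [mem_singleton_iff, Prod.mk.injEq] at h
    obtain ⟨rfl, rfl⟩ := h
    exact ⟨hP, interior_subset hy, IsExposed.refl _, interior_subset_intrinsicInterior hy⟩

theorem cell_interior (hT : IsTiling T) {P : Set (EuclideanSpace ℝ (Fin d))} (hP : P ∈ T)
    {x : EuclideanSpace ℝ (Fin d)} (hx : x ∈ interior P) : cell T x = P := by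
  apply subset_antisymm (cell_subset hT hP (interior_subset hx))
  rw [← (hT.1 P hP).closure_interior]
  refine closure_mono (fun y hy => ?_)
  show sigma T y = sigma T x
  rw [sigma_interior hT hP hy, sigma_interior hT hP hx]

theorem tile_mem (hT : IsTiling T) {P : Set (EuclideanSpace ℝ (Fin d))} (hP : P ∈ T) :
    P ∈ facePoset T := by
  obtain ⟨x, hx⟩ := (hT.1 P hP).2
  rw [← cell_interior hT hP hx]
  exact cell_mem T x

theorem cell_extreme (hT : IsTiling T) {P Q : Set (EuclideanSpace ℝ (Fin d))} (hP : P ∈ T)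
    (hQ : Q ∈ T) {x : EuclideanSpace ℝ (Fin d)} (hx : x ∈ (P ∩ Q).extremePoints ℝ) :
    cell T x = {x} := by
  have : {y | sigma T y = sigma T x} = {x} := by
    ext y
    refine ⟨fun hy => ?_, fun hy => by rw [mem_singleton_iff.1 hy]; rfl⟩
    have hy' : sigma T y = sigma T x := hy
    have h1 := minFace_mem_sigma hT hP hx.1.1
    have h2 := minFace_mem_sigma hT hQ hx.1.2
    have h1' := h1
    have h2' := h2
    rw [← hy'] at h1' h2'
    obtain ⟨ε, hε, he⟩ := relint_extend h1.2.2.2
      (subset_affineSpan ℝ _ (intrinsicInterior_subset h1'.2.2.2))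
    obtain ⟨η, hη, hh⟩ := relint_extend h2.2.2.2
      (subset_affineSpan ℝ _ (intrinsicInterior_subset h2'.2.2.2))
    have hpos : 0 < min ε η := lt_min hε hη
    have hz : x + (min ε η) • (x - y) ∈ P ∩ Q :=
      ⟨(he _ (by rw [abs_of_pos hpos]; exact min_le_left _ _)).1,
        (hh _ (by rw [abs_of_pos hpos]; exact min_le_right _ _)).1⟩
    refine hx.2 ⟨h1'.2.1, h2'.2.1⟩ hz ⟨min ε η / (1 + min ε η), 1 / (1 + min ε η),
      by positivity, by positivity, by field_simp; ring, ?_⟩
    have hne : (1 + min ε η) ≠ 0 := by positivity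
    match_scalars <;> field_simp <;> ring
  unfold cell
  rw [this, closure_singleton]

theorem exists_tile (hT : IsTiling T) (x : EuclideanSpace ℝ (Fin d)) : ∃ P ∈ T, x ∈ P := by
  have : x ∈ ⋃₀ T := by rw [hT.2.1]; trivial
  exact this

end Pool.Agent.MP_d6d24d_co.H30
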