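import Pool.Agent.MP_d6d24d_co.H30.Obstruct

/-! A tiling of `ℝ^d` by unit cubes stacked in columns, two of which are level with each other
while all the others are shifted by one half. -/

namespace Pool.Agent.MP_d6d24d_co.H30

open Set

/-- The unit cube with lowest corner `a`. -/
def cube {d : ℕ} (a : Fin d → ℝ) : Set (EuclideanSpace ℝ (Fin d)) :=
  {x | ∀ i, a i ≤ x i ∧ x i ≤ a i + 1}

theorem cube_eq_preimage {d : ℕ} (a : Fin d → ℝ) :
    cube a = (EuclideanSpace.equiv (Fin d) ℝ) ⁻¹' (Set.pi univ fun i => Icc (a i) (a i + 1)) := by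
  ext x
  simp [cube, Pi.le_def, forall_and]

theorem mem_interior_cube {d : ℕ} (a : Fin d → ℝ) (x : EuclideanSpace ℝ (Fin d)) :
    x ∈ interior (cube a) ↔ ∀ i, a i < x i ∧ x i < a i + 1 := by
  have h := (EuclideanSpace.equiv (Fin d) ℝ).toHomeomorph.preimage_interior
    (Set.pi univ fun i => Icc (a i) (a i + 1))
  rw [cube_eq_preimage]
  erw [← h]
  rw [interior_pi_set finite_univ]
  simp

theorem cube_isPolytope {d : ℕ} (a : Fin d → ℝ) : IsPolytope (cube a) := by
  classical
  constructor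
  · have hfin : (Set.pi univ fun i => ({a i, a i + 1} : Set ℝ)).Finite :=
      Set.Finite.pi (fun i => by simp)
    refine ⟨(hfin.image (EuclideanSpace.equiv (Fin d) ℝ).symm).toFinset, ?_⟩
    rw [Finite.coe_toFinset]
    have := ((EuclideanSpace.equiv (Fin d) ℝ).symm.toLinearEquiv.toLinearMap.image_convexHull
      (Set.pi univ fun i => ({a i, a i + 1} : Set ℝ)))
    erw [← this]
    rw [convexHull_pi, cube_eq_preimage]
    have h2 : (fun i => convexHull ℝ ({a i, a i + 1} : Set ℝ)) = fun i => Icc (a i) (a i + 1) := by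
      funext i
      rw [convexHull_pair, segment_eq_Icc (by linarith)]
    rw [h2]
    ext x
    constructor
    · intro hx
      exact ⟨_, hx, by simp⟩
    · rintro ⟨y, hy, rfl⟩
      exact hy
  · refine ⟨WithLp.toLp 2 (fun i => a i + 1 / 2), (mem_interior_cube _ _).2 fun i => ?_⟩
    constructor <;> simp <;> norm_num

/-- The vertical shift of a column. -/
noncomputable def shift {n : ℕ} (i : Fin n → ℤ) : ℝ :=
  if i = 0 ∨ i = -1 then 0 else 1 / 2

theorem shift_cases {n : ℕ} (i : Fin n → ℤ) :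
    ((i = 0 ∨ i = -1) ∧ shift i = 0) ∨ shift i = 1 / 2 := by
  unfold shift
  split_ifs with h
  · exact Or.inl ⟨h, rfl⟩
  · exact Or.inr rfl

/-- The corner of cube number `k` of column `i`. -/
noncomputable def corner {n : ℕ} (i : Fin n → ℤ) (k : ℤ) : Fin (n + 1) → ℝ :=
  Fin.cons (k + shift i) fun j => (i j : ℝ)

/-- The tiling. -/
def cubeTiling (n : ℕ) : Set (Set (EuclideanSpace ℝ (Fin (n + 1)))) :=
  {P | ∃ (i : Fin n → ℤ) (k : ℤ), P = cube (corner i k)}

theorem mem_cube_corner {n : ℕ} (i : Fin n → ℤ) (k : ℤ) (x : EuclideanSpace ℝ (Fin (n + 1))) :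
    x ∈ cube (corner i k) ↔ (k + shift i ≤ x 0 ∧ x 0 ≤ k + shift i + 1) ∧
      ∀ j, (i j : ℝ) ≤ x j.succ ∧ x j.succ ≤ i j + 1 := by
  simp [cube, corner, Fin.forall_fin_succ]

theorem mem_interior_cube_corner {n : ℕ} (i : Fin n → ℤ) (k : ℤ)
    (x : EuclideanSpace ℝ (Fin (n + 1))) :
    x ∈ interior (cube (corner i k)) ↔ (k + shift i < x 0 ∧ x 0 < k + shift i + 1) ∧
      ∀ j, (i j : ℝ) < x j.succ ∧ x j.succ < i j + 1 := by
  simp [mem_interior_cube, corner, Fin.forall_fin_succ]

theorem mem_column {n : ℕ} (i : Fin n → ℤ) (x : EuclideanSpace ℝ (Fin (n + 1)))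
    (h : ∀ j, (i j : ℝ) ≤ x j.succ ∧ x j.succ ≤ i j + 1) :
    x ∈ cube (corner i ⌊x 0 - shift i⌋) := by
  rw [mem_cube_corner]
  have h1 := Int.floor_le (x 0 - shift i)
  have h2 := Int.lt_floor_add_one (x 0 - shift i)
  exact ⟨⟨by linarith, by linarith⟩, h⟩

theorem int_eq_of_between {a b : ℤ} {t : ℝ} (h1 : (a : ℝ) < t) (h2 : t < a + 1) (h3 : (b : ℝ) < t)
    (h4 : t < b + 1) : a = b := by
  have e1 : (a : ℝ) < b + 1 := by linarith
  have e2 : (b : ℝ) < a + 1 := by linarith
  have e1' : a < b + 1 := by exact_mod_cast e1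
  have e2' : b < a + 1 := by exact_mod_cast e2
  omega

theorem cubeTiling_isTiling (n : ℕ) : IsTiling (cubeTiling n) := by
  refine ⟨?_, ?_, ?_⟩
  · rintro P ⟨i, k, rfl⟩
    exact cube_isPolytope _
  · rw [eq_univ_iff_forall]
    intro x
    refine ⟨_, ⟨fun j => ⌊x j.succ⌋, _, rfl⟩, mem_column _ x fun j => ?_⟩
    exact ⟨Int.floor_le _, (Int.lt_floor_add_one _).le⟩
  · rintro P ⟨i, k, rfl⟩ Q ⟨i', k', rfl⟩ hne
    rw [Set.disjoint_left]
    intro x hx hx'
    rw [mem_interior_cube_corner] at hx hx'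
    apply hne
    have hi : i = i' := funext fun j =>
      int_eq_of_between (hx.2 j).1 (hx.2 j).2 (hx'.2 j).1 (hx'.2 j).2
    subst hi
    have hk : k = k' := int_eq_of_between (t := x 0 - shift i) (by linarith [hx.1.1])
      (by linarith [hx.1.2]) (by linarith [hx'.1.1]) (by linarith [hx'.1.2])
    rw [hk]

theorem cubeTiling_locFinite (n : ℕ) : IsLocFinite (cubeTiling n) := by
  intro B hB
  obtain ⟨R, hR⟩ := hB.exists_norm_le
  obtain ⟨N, hN⟩ := exists_nat_ge R
  have hfin : ((Set.pi univ fun _ : Fin n => Icc (-(N : ℤ) - 2) (N + 2)) ×ˢ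
      Icc (-(N : ℤ) - 2) (N + 2)).Finite :=
    (Set.Finite.pi fun _ => finite_Icc _ _).prod (finite_Icc _ _)
  refine (hfin.image fun p => cube (corner p.1 p.2)).subset ?_
  rintro P ⟨⟨i, k, rfl⟩, x, hx, hxB⟩
  refine ⟨(i, k), ?_, rfl⟩
  rw [mem_cube_corner] at hx
  have hb : ∀ j, |x j| ≤ N := fun j =>
    (le_trans (by simpa using PiLp.norm_apply_le x j) (hR x hxB)).trans hN
  constructor
  · intro j _
    have h1 := abs_le.1 (hb j.succ)
    have h2 := hx.2 j
    constructor
    · have : (-(N : ℝ) - 2) ≤ i j := by linarith [h1.1, h2.2]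
      exact_mod_cast this
    · have : (i j : ℝ) ≤ N + 2 := by linarith [h1.2, h2.1]
      exact_mod_cast this
  · have h1 := abs_le.1 (hb 0)
    have h2 := hx.1
    have h3 : 0 ≤ shift i ∧ shift i ≤ 1 := by
      rcases shift_cases i with h | h
      · rw [h.2]; norm_num
      · rw [h]; norm_num
    constructor
    · have : (-(N : ℝ) - 2) ≤ k := by linarith [h1.1, h2.2, h3.2]
      exact_mod_cast this
    · have : (k : ℝ) ≤ N + 2 := by linarith [h1.2, h2.1, h3.1]
      exact_mod_cast this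

/-- The point `(t, 0, …, 0)`. -/
noncomputable def pt (n : ℕ) (t : ℝ) : EuclideanSpace ℝ (Fin (n + 1)) :=
  WithLp.toLp 2 (Fin.cons t fun _ => (0 : ℝ))

@[simp] theorem pt_zero (n : ℕ) (t : ℝ) : pt n t 0 = t := by simp [pt]

@[simp] theorem pt_succ (n : ℕ) (t : ℝ) (j : Fin n) : pt n t j.succ = 0 := by simp [pt]

theorem index_of_mem {n : ℕ} {i : Fin n → ℤ} {k : ℤ} (h0 : pt n 0 ∈ cube (corner i k))
    (h1 : pt n 1 ∈ cube (corner i k)) : (i = 0 ∨ i = -1) ∧ k = 0 := by
  rw [mem_cube_corner] at h0 h1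
  have e1 := h0.1.1
  have e2 := h1.1.2
  rw [pt_zero] at e1 e2
  have e : (k : ℝ) + shift i = 0 := by linarith
  rcases shift_cases i with h | h
  · rw [h.2, add_zero] at e
    exact ⟨h.1, by exact_mod_cast e⟩
  · exfalso
    rw [h] at e
    have : (2 * k + 1 : ℝ) = 0 := by linarith
    have : 2 * k + 1 = 0 := by exact_mod_cast this
    omega

theorem shift_zero (n : ℕ) : shift (0 : Fin n → ℤ) = 0 := by simp [shift]

theorem shift_neg_one (n : ℕ) : shift (-1 : Fin n → ℤ) = 0 := by simp [shift]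

theorem pt_extreme (n : ℕ) {t : ℝ} (ht : t = 0 ∨ t = 1) :
    pt n t ∈ (cube (corner (0 : Fin n → ℤ) 0) ∩ cube (corner 0 0)).extremePoints ℝ := by
  rw [inter_self]
  constructor
  · rw [mem_cube_corner, shift_zero]
    rcases ht with rfl | rfl <;> simp
  · rintro x hx y hy ⟨a, b, ha, hb, hab, h⟩
    rw [mem_cube_corner, shift_zero] at hx hy
    ext j
    have hj := congrArg (fun z : EuclideanSpace ℝ (Fin (n + 1)) => z j) h
    simp only [PiLp.add_apply, PiLp.smul_apply, smul_eq_mul] at hj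
    refine Fin.cases ?_ (fun j => ?_) j hj
    · intro hj
      have h1 := hx.1
      have h2 := hy.1
      simp only [Int.cast_zero, add_zero, zero_add] at h1 h2
      rw [pt_zero] at hj ⊢
      rcases ht with rfl | rfl
      · nlinarith [h1.1, h2.1]
      · nlinarith [h1.2, h2.2]
    · intro hj
      have h1 := hx.2 j
      have h2 := hy.2 j
      simp only [Pi.zero_apply, Int.cast_zero, zero_add] at h1 h2
      rw [pt_succ] at hj ⊢
      nlinarith [h1.1, h2.1]

theorem only_two {n : ℕ} (hn : 2 ≤ n) (C : Set (EuclideanSpace ℝ (Fin (n + 1))))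
    (hC : C ∈ facePoset (cubeTiling n)) (h0 : pt n 0 ∈ C) (h1 : pt n 1 ∈ C) :
    C = cube (corner 0 0) ∨ C = cube (corner (-1) 0) ∨ C = univ := by
  classical
  rcases hC with ⟨x, hx⟩ | h | h
  · have hT := cubeTiling_isTiling n
    have hCx : C = cell (cubeTiling n) x := hx
    have key : ∀ (i : Fin n → ℤ) (k : ℤ), x ∈ cube (corner i k) → (i = 0 ∨ i = -1) ∧ k = 0 := by
      intro i k h
      have := cell_subset hT ⟨i, k, rfl⟩ h
      rw [← hCx] at this
      exact index_of_mem (this h0) (this h1)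
    set i : Fin n → ℤ := fun j => ⌊x j.succ⌋ with hi
    have hcol : ∀ j, (i j : ℝ) ≤ x j.succ ∧ x j.succ ≤ i j + 1 := fun j =>
      ⟨Int.floor_le _, (Int.lt_floor_add_one _).le⟩
    have hmem := mem_column i x hcol
    obtain ⟨hi0, hk⟩ := key _ _ hmem
    have hint : x ∈ interior (cube (corner i ⌊x 0 - shift i⌋)) := by
      rw [mem_interior_cube_corner]
      refine ⟨⟨?_, ?_⟩, fun j => ⟨?_, Int.lt_floor_add_one _⟩⟩
      · have h2 := Int.floor_le (x 0 - shift i)
        rcases h2.eq_or_lt with h3 | h3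
        · exfalso
          have : x ∈ cube (corner i (⌊x 0 - shift i⌋ - 1)) := by
            rw [mem_cube_corner]
            refine ⟨⟨?_, ?_⟩, hcol⟩ <;> push_cast <;> linarith
          have := (key _ _ this).2
          omega
        · linarith
      · have := Int.lt_floor_add_one (x 0 - shift i)
        linarith
      · rcases (hcol j).1.eq_or_lt with h3 | h3
        · exfalso
          have hcol' : ∀ j', ((Function.update i j (i j - 1) j' : ℤ) : ℝ) ≤ x j'.succ ∧
              x j'.succ ≤ (Function.update i j (i j - 1) j' : ℤ) + 1 := by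
            intro j'
            by_cases hj : j' = j
            · subst hj
              rw [Function.update_self]
              push_cast
              constructor <;> linarith
            · rw [Function.update_of_ne hj]
              exact hcol j'
          have h4 := (key _ _ (mem_column _ x hcol')).1
          have : Nontrivial (Fin n) := Fin.nontrivial_iff_two_le.2 hn
          obtain ⟨j', hj'⟩ := exists_ne j
          have e1 : Function.update i j (i j - 1) j = i j - 1 := Function.update_self ..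
          have e2 : Function.update i j (i j - 1) j' = i j' := Function.update_of_ne hj' ..
          rcases hi0 with h5 | h5 <;> rcases h4 with h6 | h6 <;> rw [h6] at e1 e2 <;>
            rw [h5] at e1 e2 <;> simp at e1 e2
        · exact h3
    have := cell_interior hT ⟨i, _, rfl⟩ hint
    rw [← hCx, hk] at this
    rcases hi0 with h5 | h5
    · left; rw [this, h5]
    · right; left; rw [this, h5]
  · rw [h] at h0; exact absurd h0 (notMem_empty _)
  · exact Or.inr (Or.inr h)

theorem cubeTiling_no_dual {n : ℕ} (hn : 2 ≤ n) (T' : Set (Set (EuclideanSpace ℝ (Fin (n + 1)))))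
    (hT' : IsTiling T') : ¬ IsDual (cubeTiling n) T' := by
  have hT := cubeTiling_isTiling n
  have hA : cube (corner (0 : Fin n → ℤ) 0) ∈ cubeTiling n := ⟨0, 0, rfl⟩
  have hB : cube (corner (-1 : Fin n → ℤ) 0) ∈ cubeTiling n := ⟨-1, 0, rfl⟩
  have hv : ∀ t : ℝ, t = 0 ∨ t = 1 → {pt n t} ∈ facePoset (cubeTiling n) := fun t ht => by
    rw [← cell_extreme hT hA hA (pt_extreme n ht)]
    exact cell_mem _ _
  have hnu : ∀ P ∈ cubeTiling n, P ≠ univ := fun P hP h =>
    noncompact_univ (EuclideanSpace ℝ (Fin (n + 1))) (h ▸ (hT.1 P hP).isCompact)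
  refine not_isDual_of_two_cells (Nat.succ_pos n) hT' (hv 0 (Or.inl rfl)) (hv 1 (Or.inr rfl))
    (tile_mem hT hA) (tile_mem hT hB) ?_ (hnu _ hA) (hnu _ hB) ?_ ?_ ?_ ?_ (only_two hn)
  · intro h
    have h1 : (WithLp.toLp 2 (fun _ => (1 : ℝ)) : EuclideanSpace ℝ (Fin (n + 1))) ∈
        cube (corner (0 : Fin n → ℤ) 0) := by
      rw [mem_cube_corner, shift_zero]; simp
    rw [h, mem_cube_corner] at h1
    have := (h1.2 ⟨0, by omega⟩).2
    norm_num at this
  all_goals
    rw [mem_cube_corner]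
    first | rw [shift_zero] | rw [shift_neg_one]
    simp

end Pool.Agent.MP_d6d24d_co.H30
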