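import Mathlib

/-! Definitions for tilings by convex polytopes, their face posets and duality. -/

namespace Pool.Agent.MP_d6d24d_co.H30

open Set

/-- A `d`-dimensional convex polytope in `ℝ^d`: the convex hull of a finite set, with interior. -/
def IsPolytope {d : ℕ} (P : Set (EuclideanSpace ℝ (Fin d))) : Prop :=
  (∃ S : Finset (EuclideanSpace ℝ (Fin d)), P = convexHull ℝ (S : Set _)) ∧ (interior P).Nonempty

/-- A tiling of `ℝ^d` by convex polytopes. -/
def IsTiling {d : ℕ} (T : Set (Set (EuclideanSpace ℝ (Fin d)))) : Prop :=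
  (∀ P ∈ T, IsPolytope P) ∧ ⋃₀ T = univ ∧
    ∀ P ∈ T, ∀ Q ∈ T, P ≠ Q → Disjoint (interior P) (interior Q)

/-- Every bounded set meets only finitely many tiles. -/
def IsLocFinite {d : ℕ} (T : Set (Set (EuclideanSpace ℝ (Fin d)))) : Prop :=
  ∀ B : Set (EuclideanSpace ℝ (Fin d)), Bornology.IsBounded B →
    {P ∈ T | (P ∩ B).Nonempty}.Finite

/-- `σ(x)`: the pairs (tile `P` containing `x`, face `F` of `P` with `x` in its relative
interior). -/
def sigma {d : ℕ} (T : Set (Set (EuclideanSpace ℝ (Fin d)))) (x : EuclideanSpace ℝ (Fin d)) :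
    Set (Set (EuclideanSpace ℝ (Fin d)) × Set (EuclideanSpace ℝ (Fin d))) :=
  {p | p.1 ∈ T ∧ x ∈ p.1 ∧ IsExposed ℝ p.1 p.2 ∧ x ∈ intrinsicInterior ℝ p.2}

/-- The face poset `L(T)`: closures of the classes of `σ(x) = σ(y)`, the empty set and `ℝ^d`. -/
def facePoset {d : ℕ} (T : Set (Set (EuclideanSpace ℝ (Fin d)))) :
    Set (Set (EuclideanSpace ℝ (Fin d))) :=
  {C | (∃ x, C = closure {y | sigma T y = sigma T x}) ∨ C = ∅ ∨ C = univ}

/-- Duality: an inclusion-reversing bijection of the face posets. -/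
def IsDual {d : ℕ} (T T' : Set (Set (EuclideanSpace ℝ (Fin d)))) : Prop :=
  ∃ φ : facePoset T ≃ facePoset T', ∀ F G : facePoset T, F.1 ⊆ G.1 ↔ (φ G).1 ⊆ (φ F).1

end Pool.Agent.MP_d6d24d_co.H30
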