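import Pool.Agent.MP_d6d24d_co.H30.Cells

/-! The obstruction: two vertices that lie in exactly two cells. -/

namespace Pool.Agent.MP_d6d24d_co.H30

open Set

variable {d : ℕ} {T T' : Set (Set (EuclideanSpace ℝ (Fin d)))}

theorem empty_mem (T : Set (Set (EuclideanSpace ℝ (Fin d)))) : ∅ ∈ facePoset T :=
  Or.inr (Or.inl rfl)

theorem univ_mem (T : Set (Set (EuclideanSpace ℝ (Fin d)))) : univ ∈ facePoset T :=
  Or.inr (Or.inr rfl)

theorem dual_univ (φ : facePoset T ≃ facePoset T')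
    (hφ : ∀ F G : facePoset T, F.1 ⊆ G.1 ↔ (φ G).1 ⊆ (φ F).1) :
    (φ ⟨univ, univ_mem T⟩).1 = ∅ := by
  have := (hφ (φ.symm ⟨∅, empty_mem T'⟩) ⟨univ, univ_mem T⟩).1 (subset_univ _)
  simpa using this

theorem dual_empty (φ : facePoset T ≃ facePoset T')
    (hφ : ∀ F G : facePoset T, F.1 ⊆ G.1 ↔ (φ G).1 ⊆ (φ F).1) :
    (φ ⟨∅, empty_mem T⟩).1 = univ := by
  have := (hφ ⟨∅, empty_mem T⟩ (φ.symm ⟨univ, univ_mem T'⟩)).1 (empty_subset _)
  simpa using this

theorem dual_nonempty (φ : facePoset T ≃ facePoset T')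
    (hφ : ∀ F G : facePoset T, F.1 ⊆ G.1 ↔ (φ G).1 ⊆ (φ F).1) (F : facePoset T)
    (hF : F.1 ≠ univ) : (φ F).1.Nonempty := by
  rw [nonempty_iff_ne_empty]
  intro h
  apply hF
  have : φ F = φ ⟨univ, univ_mem T⟩ := Subtype.ext (by rw [h, dual_univ φ hφ])
  rw [φ.injective this]

theorem dual_vertex (hd : 0 < d) (hT' : IsTiling T') (φ : facePoset T ≃ facePoset T')
    (hφ : ∀ F G : facePoset T, F.1 ⊆ G.1 ↔ (φ G).1 ⊆ (φ F).1) {v : EuclideanSpace ℝ (Fin d)}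
    (hv : {v} ∈ facePoset T) : (φ ⟨{v}, hv⟩).1 ∈ T' := by
  have : Nonempty (Fin d) := ⟨⟨0, hd⟩⟩
  have hne : ({v} : Set (EuclideanSpace ℝ (Fin d))) ≠ univ := fun h =>
    noncompact_univ (EuclideanSpace ℝ (Fin d)) (h ▸ isCompact_singleton)
  rcases (φ ⟨{v}, hv⟩).2 with ⟨x, hx⟩ | h | h
  · obtain ⟨P, hP, hxP⟩ := exists_tile hT' x
    have hsub : (φ ⟨{v}, hv⟩).1 ⊆ P := by rw [hx]; exact cell_subset hT' hP hxP
    have h1 := (hφ (φ.symm ⟨P, tile_mem hT' hP⟩) ⟨{v}, hv⟩).2 (by simpa using hsub)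
    rcases subset_singleton_iff_eq.1 h1 with h2 | h2
    · exfalso
      have h3 : φ.symm ⟨P, tile_mem hT' hP⟩ = ⟨∅, empty_mem T⟩ := Subtype.ext h2
      have h4 := dual_empty φ hφ
      rw [← h3] at h4
      simp only [Equiv.apply_symm_apply] at h4
      exact noncompact_univ (EuclideanSpace ℝ (Fin d)) (h4 ▸ (hT'.1 P hP).isCompact)
    · have h3 : φ.symm ⟨P, tile_mem hT' hP⟩ = ⟨{v}, hv⟩ := Subtype.ext h2
      rw [← h3]
      simpa using hP
  · exact absurd h (dual_nonempty φ hφ ⟨{v}, hv⟩ hne).ne_empty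
  · exfalso
    have : φ ⟨{v}, hv⟩ = φ ⟨∅, empty_mem T⟩ := Subtype.ext (by rw [h, dual_empty φ hφ])
    have := congrArg Subtype.val (φ.injective this)
    simp at this

theorem not_isDual_of_two_cells (hd : 0 < d) (hT' : IsTiling T')
    {v w : EuclideanSpace ℝ (Fin d)} (hv : {v} ∈ facePoset T) (hw : {w} ∈ facePoset T)
    {A B : Set (EuclideanSpace ℝ (Fin d))} (hA : A ∈ facePoset T) (hB : B ∈ facePoset T)
    (hAB : A ≠ B) (hAu : A ≠ univ) (hBu : B ≠ univ) (hvA : v ∈ A) (hwA : w ∈ A) (hvB : v ∈ B)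
    (hwB : w ∈ B) (honly : ∀ C ∈ facePoset T, v ∈ C → w ∈ C → C = A ∨ C = B ∨ C = univ) :
    ¬ IsDual T T' := by
  rintro ⟨φ, hφ⟩
  have hP := dual_vertex hd hT' φ hφ hv
  have hQ := dual_vertex hd hT' φ hφ hw
  set P := (φ ⟨{v}, hv⟩).1 with hPdef
  set Q := (φ ⟨{w}, hw⟩).1 with hQdef
  set a := (φ ⟨A, hA⟩).1 with hadef
  set b := (φ ⟨B, hB⟩).1 with hbdef
  have ha : a ⊆ P ∩ Q := subset_inter ((hφ ⟨{v}, hv⟩ ⟨A, hA⟩).1 (by simpa using hvA))
    ((hφ ⟨{w}, hw⟩ ⟨A, hA⟩).1 (by simpa using hwA))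
  have hb : b ⊆ P ∩ Q := subset_inter ((hφ ⟨{v}, hv⟩ ⟨B, hB⟩).1 (by simpa using hvB))
    ((hφ ⟨{w}, hw⟩ ⟨B, hB⟩).1 (by simpa using hwB))
  have hab : a ≠ b := fun h => hAB (congrArg Subtype.val (φ.injective (Subtype.ext h)))
  have hane : a.Nonempty := dual_nonempty φ hφ ⟨A, hA⟩ hAu
  have hbne : b.Nonempty := dual_nonempty φ hφ ⟨B, hB⟩ hBu
  have hcell : ∀ z ∈ P ∩ Q, cell T' z = a ∨ cell T' z = b := by
    intro z hz
    set C := φ.symm ⟨cell T' z, cell_mem T' z⟩ with hC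
    have hφC : (φ C).1 = cell T' z := by simp [hC]
    have h1 : v ∈ C.1 := by
      have := (hφ ⟨{v}, hv⟩ C).2 (by rw [hφC]; exact cell_subset hT' hP hz.1)
      simpa using this
    have h2 : w ∈ C.1 := by
      have := (hφ ⟨{w}, hw⟩ C).2 (by rw [hφC]; exact cell_subset hT' hQ hz.2)
      simpa using this
    rcases honly C.1 C.2 h1 h2 with h | h | h
    · left; rw [← hφC, hadef]; congr 2; exact Subtype.ext h
    · right; rw [← hφC, hbdef]; congr 2; exact Subtype.ext h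
    · exfalso
      have h3 : C = ⟨univ, univ_mem T⟩ := Subtype.ext h
      rw [h3, dual_univ φ hφ] at hφC
      have := self_mem_cell T' z
      rw [← hφC] at this
      exact this
  have hKc : Convex ℝ (P ∩ Q) := (hT'.1 P hP).convex.inter (hT'.1 Q hQ).convex
  have hKk : IsCompact (P ∩ Q) :=
    (hT'.1 P hP).isCompact.inter_right (hT'.1 Q hQ).isCompact.isClosed
  have hKM := closure_convexHull_extremePoints hKk hKc
  have hnt : ((P ∩ Q).extremePoints ℝ).Nontrivial := by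
    by_contra hs
    rw [Set.not_nontrivial_iff] at hs
    have hsub : (P ∩ Q).Subsingleton := by
      rw [← hKM]
      rcases hs.eq_empty_or_singleton with h | ⟨x, h⟩
      · rw [h]; simp
      · rw [h]; simp
    obtain ⟨x, hx⟩ := hane
    obtain ⟨y, hy⟩ := hbne
    apply hab
    rw [(hsub.anti ha).eq_singleton_of_mem hx, (hsub.anti hb).eq_singleton_of_mem hy,
      hsub (ha hx) (hb hy)]
  obtain ⟨x, hx, y, hy, hxy⟩ := hnt
  have hcx := hcell x hx.1
  have hcy := hcell y hy.1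
  rw [cell_extreme hT' hP hQ hx] at hcx
  rw [cell_extreme hT' hP hQ hy] at hcy
  have hm : midpoint ℝ x y ∈ P ∩ Q := hKc.midpoint_mem hx.1 hy.1
  have hcm := hcell _ hm
  have hmm := self_mem_cell T' (midpoint ℝ x y)
  have hxy' : ({x} : Set _) ≠ {y} := fun h => hxy (singleton_injective h)
  have key : midpoint ℝ x y = x ∨ midpoint ℝ x y = y := by
    rcases hcx with h1 | h1 <;> rcases hcy with h2 | h2 <;> rcases hcm with h3 | h3
    all_goals first
      | exact absurd (h1.trans h2.symm) hxy'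
      | (left; rw [h3, ← h1] at hmm; exact hmm)
      | (right; rw [h3, ← h2] at hmm; exact hmm)
  rcases key with h | h
  · exact hxy ((left_eq_midpoint_iff ℝ).1 h.symm)
  · exact hxy ((midpoint_eq_right_iff ℝ).1 h)

end Pool.Agent.MP_d6d24d_co.H30
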